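import Pool.Agent.H676Z.CR.Src

/-!
# Strictification of patterns with lines in the order of their slopes
-/

namespace Pool.Agent.H426Z.CR

open Pool.Agent.NPC Pool.Agent.NPC.ER Pool.Agent.NPC.ER.Pat Pool.Agent.H676Z.CR
open Filter Topology

theorem poly_ocols : NPC.Poly ocols := by
  refine NPC.Poly.flatMap (F := fun _ n => [(n, 2), (n, 0), (n, 3), (n, 1)]) NPC.Poly.id ?_
  have h : NPC.Poly (fun z : List ℕ × ℕ => z.2) := NPC.Poly.snd NPC.Poly.id
  exact NPC.Poly.cons (NPC.Poly.pair h (NPC.Poly.const _)) (NPC.Poly.cons (NPC.Poly.pair h (NPC.Poly.const _))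
    (NPC.Poly.cons (NPC.Poly.pair h (NPC.Poly.const _)) (NPC.Poly.cons (NPC.Poly.pair h (NPC.Poly.const _))
      (NPC.Poly.const []))))

theorem poly_omat : NPC.Poly fun a : Pat.Pat × List ℕ => omat a.1 a.2 := by
  have k1 : NPC.Poly fun a : Pat.Pat × List ℕ => cps a.1 true :=
    NPC.Poly.comp (g := fun p : Pat.Pat => cps p true) (f := fun a : Pat.Pat × List ℕ => a.1)
      (poly_cps true) (NPC.Poly.fst NPC.Poly.id)
  refine NPC.Poly.map (F := fun (x : Pat.Pat × List ℕ) a => (ocols x.2).map fun c =>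
    entry x.1 a.1 a.2 c.1 c.2) k1 ?_
  have k2 : NPC.Poly fun x : (Pat.Pat × List ℕ) × ℕ × ℕ => ocols x.1.2 :=
    NPC.Poly.comp (g := ocols) (f := fun x : (Pat.Pat × List ℕ) × ℕ × ℕ => x.1.2) poly_ocols
      (NPC.Poly.snd (NPC.Poly.fst NPC.Poly.id))
  refine NPC.Poly.map (F := fun (x : (Pat.Pat × List ℕ) × ℕ × ℕ) c =>
    entry x.1.1 x.2.1 x.2.2 c.1 c.2) k2 ?_
  have h1 : NPC.Poly (fun z : ((Pat.Pat × List ℕ) × ℕ × ℕ) × ℕ × ℕ => z.1) := NPC.Poly.fst NPC.Poly.id
  have h2 : NPC.Poly (fun z : ((Pat.Pat × List ℕ) × ℕ × ℕ) × ℕ × ℕ => z.2) := NPC.Poly.snd NPC.Poly.id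
  exact poly_entry (NPC.Poly.fst (NPC.Poly.fst h1)) (NPC.Poly.fst (NPC.Poly.snd h1)) (NPC.Poly.snd (NPC.Poly.snd h1))
    (NPC.Poly.fst h2) (NPC.Poly.snd h2)

theorem mem_ocols {cl : List ℕ} {n b : ℕ} : (n, b) ∈ ocols cl ↔ n ∈ cl ∧ b < 4 := by
  simp only [ocols, List.mem_flatMap, List.mem_cons, Prod.mk.injEq, List.not_mem_nil, or_false]
  constructor
  · rintro ⟨a, ha, h⟩
    rcases h with ⟨rfl, rfl⟩ | ⟨rfl, rfl⟩ | ⟨rfl, rfl⟩ | ⟨rfl, rfl⟩ <;> exact ⟨ha, by norm_num⟩
  · rintro ⟨h1, h2⟩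
    refine ⟨n, h1, ?_⟩
    interval_cases b <;> simp

theorem length_omat (p : Pat.Pat) (cl : List ℕ) : (omat p cl).length = (cps p true).length := by
  simp [omat]

theorem wid_le (p : Pat.Pat) (cl : List ℕ) : wid (omat p cl) ≤ (ocols cl).length := by
  unfold wid omat
  cases cps p true <;> simp

theorem wid_eq (p : Pat.Pat) (cl : List ℕ) (h : 0 < (cps p true).length) :
    wid (omat p cl) = (ocols cl).length := by
  unfold wid omat
  cases h' : cps p true with
  | nil => simp [h'] at h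
  | cons a l => simp

theorem ent_omat (p : Pat.Pat) (cl : List ℕ) {i j : ℕ} (hi : i < (cps p true).length)
    (hj : j < (ocols cl).length) : ent (omat p cl) i j =
      entry p (cps p true)[i].1 (cps p true)[i].2 (ocols cl)[j].1 (ocols cl)[j].2 := by
  unfold ent omat
  rw [List.getD_eq_getElem (List.map _ (cps p true)) _ (by simpa using hi), List.getElem_map,
    List.getD_eq_getElem _ _ (by simpa using hj), List.getElem_map]

theorem exact_of_sep {p : Pat.Pat} {cl : List ℕ} (hp : WF p) (hcl : Cols p cl)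
    (h : Sep (omat p cl).length (wid (omat p cl)) (ent (omat p cl))) : ∃ X, Exact p X := by
  obtain ⟨q, hq⟩ := h
  have hq' : ∀ j, ∃ v : Fin 3 → ℝ, j < wid (omat p cl) → ∀ i < (omat p cl).length,
      0 < sgn (ent (omat p cl) i j) * (![(q i).1, (q i).2, 1] ⬝ᵥ v) := by
    intro j
    by_cases hj : j < wid (omat p cl)
    · obtain ⟨a, b, c, h⟩ := hq j hj
      refine ⟨![a, b, c], fun _ i hi => ?_⟩
      have e : ![(q i).1, (q i).2, 1] ⬝ᵥ ![a, b, c] = a * (q i).1 + b * (q i).2 + c := by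
        simp [dotProduct, Fin.sum_univ_three]; ring
      rw [e]
      cases he : ent (omat p cl) i j
      · have := (h i hi).2 he
        simp only [sgn_false]; linarith
      · have := (h i hi).1 he
        simp only [sgn_true]; linarith
    · exact ⟨0, fun h => absurd h hj⟩
  choose g hg using hq'
  let P : ℕ → ℕ → Fin 3 → ℝ := fun n b =>
    if kind p n = true then ![(q ((cps p true).idxOf (n, b))).1,
      (q ((cps p true).idxOf (n, b))).2, 1] else g ((ocols cl).idxOf (n, b))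
  have key : ∀ n < p.length, ∀ m < p.length, kind p n = true → kind p m = false → ∀ b < 4,
      ∀ b' < 4, 0 < sgn (entry p n b m b') * (P n b ⬝ᵥ P m b') := by
    intro n hn m hm hkn hkm b hb b' hb'
    have h1 : (n, b) ∈ cps p true := mem_cps.2 ⟨hn, hkn, hb⟩
    have h2 : (m, b') ∈ ocols cl := mem_ocols.2 ⟨(hcl m).2 ⟨hm, hkm⟩, hb'⟩
    have l1 := List.idxOf_lt_length_of_mem h1
    have l2 := List.idxOf_lt_length_of_mem h2
    have := hg ((ocols cl).idxOf (m, b')) (by rwa [wid_eq p cl (by omega)])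
      ((cps p true).idxOf (n, b)) (by rwa [length_omat])
    rw [ent_omat p cl l1 l2] at this
    simp only [List.getElem_idxOf] at this
    simp only [P, hkn, hkm, if_true]
    simpa using this
  refine exact_of_strict hp (P := P) fun n hn m hm hk b hb b' hb' => ?_
  have hne : n ≠ m := fun h => hk (by rw [h])
  cases hkn : kind p n
  · cases hkm : kind p m
    · rw [hkn, hkm] at hk; exact absurd rfl hk
    · rw [entry_symm p hne, dotProduct_comm]
      exact key m hm n hn hkm hkn b' hb' b hb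
  · cases hkm : kind p m
    · exact key n hn m hm hkn hkm b hb b' hb'
    · rw [hkn, hkm] at hk; exact absurd rfl hk

/-- The prescribed first order change of the slope. -/
noncomputable def tau (b : ℕ) : ℝ := 2 * sgn (b.testBit 0) - sgn (b.testBit 1)

theorem sgn_mul_self (s : Bool) : sgn s * sgn s = 1 := by cases s <;> simp [sgn]

theorem exists_W {p : Pat.Pat} {cl : List ℕ} {X : ℕ → Fin 3 → ℝ} (hp : WF p) (hX : Exact p X)
    (hN : Nice p X) (hO : Ordered p cl X) (n b : ℕ) : ∃ w : Fin 3 → ℝ, n < p.length →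
      (∀ q (h : q < (par p n).length), 0 < sgn (b.testBit q) * (w ⬝ᵥ X (par p n)[q])) ∧
      (kind p n = false → w 1 * X n 2 - w 2 * X n 1 = tau b) := by
  by_cases hn : n < p.length
  swap
  · exact ⟨0, fun h => absurd h hn⟩
  cases hk : kind p n
  swap
  · obtain ⟨w, hw⟩ := hN.dual n hn (fun q => sgn (b.testBit q))
    exact ⟨w, fun _ => ⟨fun q h => by rw [hw q h, sgn_mul_self]; exact one_pos, by simp⟩⟩
  have hL := hN.line n hn hk
  have hpt : ∀ a ∈ par p n, 0 < X a 0 ∧ X n ⬝ᵥ X a = 0 := by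
    intro a ha
    have h1 := hp.lt n hn a ha
    have h2 := hp.kind n hn a ha
    refine ⟨hN.point a (h1.trans hn) ?_, (hX n hn a h1 h2).1 ha⟩
    rw [hk] at h2
    simpa using h2
  have hlen := hp.len n hn
  have hd := hN.dual n hn
  have hl := hO.left n hn hk
  rcases hpar : par p n with _ | ⟨a, _ | ⟨a', _ | ⟨a'', l⟩⟩⟩
  · refine ⟨![0, tau b / X n 2, 0], fun _ => ⟨fun q h => by simp at h, fun _ => ?_⟩⟩
    simp only [Matrix.cons_val_one, Matrix.cons_val_zero, Matrix.cons_val, zero_mul, sub_zero]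
    field_simp
  · obtain ⟨h1, -⟩ := hpt a (by simp [hpar])
    obtain ⟨w, h2, h3⟩ := Sgn.sep2 (Y := X a) (Z := ![0, X n 2, -X n 1]) (Or.inl (by
      simp only [Matrix.cons_val_one, Matrix.cons_val_zero, mul_zero, sub_zero]
      exact (mul_pos h1 hL).ne')) (sgn (b.testBit 0)) (tau b)
    refine ⟨w, fun _ => ⟨fun q h => ?_, fun _ => ?_⟩⟩
    · obtain rfl : q = 0 := by simpa using h
      simp only [List.getElem_cons_zero]
      rw [h2, sgn_mul_self]; exact one_pos
    · rw [← h3, Sgn.dp3]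
      simp
      ring
  · obtain ⟨h1, h1'⟩ := hpt a (by simp [hpar])
    obtain ⟨h2, h2'⟩ := hpt a' (by simp [hpar])
    have h3 := hl a a' hpar
    set D := X a 1 * X a' 0 - X a 0 * X a' 1 with hD
    have hD0 : 0 < D := by linarith
    rw [hpar] at hd
    obtain ⟨w, hw⟩ := hd fun q => if q = 0 then 2 * sgn (b.testBit 0) * D / (X n 2 * X a' 0)
      else sgn (b.testBit 1) * D / (X n 2 * X a 0)
    have w0 := hw 0 (by simp)
    have w1 := hw 1 (by simp)
    simp only [List.getElem_cons_zero, List.getElem_cons_succ, if_true, one_ne_zero,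
      if_false] at w0 w1
    refine ⟨w, fun _ => ⟨fun q h => ?_, fun _ => ?_⟩⟩
    · have hq : q = 0 ∨ q = 1 := by simp at h; omega
      rcases hq with rfl | rfl
      · simp only [List.getElem_cons_zero]
        rw [w0]
        have : sgn (b.testBit 0) * (2 * sgn (b.testBit 0) * D / (X n 2 * X a' 0)) =
          2 * (sgn (b.testBit 0) * sgn (b.testBit 0)) * D / (X n 2 * X a' 0) := by ring
        rw [this, sgn_mul_self]
        positivity
      · simp only [List.getElem_cons_zero, List.getElem_cons_succ]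
        rw [w1]
        have : sgn (b.testBit 1) * (sgn (b.testBit 1) * D / (X n 2 * X a 0)) =
          (sgn (b.testBit 1) * sgn (b.testBit 1)) * D / (X n 2 * X a 0) := by ring
        rw [this, sgn_mul_self]
        positivity
    · rw [Sgn.dp3] at w0 w1 h1' h2'
      rw [eq_div_iff (by positivity)] at w0 w1
      refine mul_right_cancel₀ hD0.ne' ?_
      unfold tau
      linear_combination w0 - w1 - w 2 * X a' 0 * h1' + w 2 * X a 0 * h2'
  · rw [hpar] at hlen
    simp at hlen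

theorem slope_lt {a b c d : ℝ} (hb : 0 < b) (hd : 0 < d) (h : 0 < c * b - a * d) :
    -c / d < -a / b := by
  rw [div_lt_div_iff₀ hd hb]
  linarith

theorem strict_ordered {p : Pat.Pat} {cl : List ℕ} {X : ℕ → Fin 3 → ℝ} (hp : WF p)
    (hcl : Cols p cl) (hX : Exact p X) (hN : Nice p X) (hO : Ordered p cl X) :
    ∃ P : ℕ → ℕ → Fin 3 → ℝ, Strict p P ∧
      (∀ n < p.length, ∀ b < 4, kind p n = true → 0 < P n b 0) ∧
      (∀ n < p.length, ∀ b < 4, kind p n = false → 0 < P n b 2) ∧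
      (ocols cl).Pairwise fun c c' =>
        -(P c'.1 c'.2 1) / P c'.1 c'.2 2 < -(P c.1 c.2 1) / P c.1 c.2 2 := by
  choose W hW using exists_W hp hX hN hO
  set N := p.length with hNdef
  let Q : ℝ → ℕ → ℕ → Fin 3 → ℝ := fun ε n b => X n + ε ^ (N - n) • W n b
  have hdot : ∀ ε n b m b', Q ε n b ⬝ᵥ Q ε m b' = X n ⬝ᵥ X m + ε ^ (N - m) * (X n ⬝ᵥ W m b') +
      ε ^ (N - n) * (W n b ⬝ᵥ X m + ε ^ (N - m) * (W n b ⬝ᵥ W m b')) := by
    intro ε n b m b'
    simp only [Q, add_dotProduct, dotProduct_add, smul_dotProduct, dotProduct_smul, smul_eq_mul]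
    ring
  have hQ : ∀ ε n b i, Q ε n b i = X n i + ε ^ (N - n) * W n b i := fun _ _ _ _ => rfl
  have hT : ∀ n < N, ∀ b i, Tendsto (fun ε : ℝ => Q ε n b i) (𝓝[>] 0) (𝓝 (X n i)) := by
    intro n hn b i
    have h3 : Tendsto (fun ε : ℝ => X n i + ε ^ (N - n) * W n b i) (𝓝[>] 0)
        (𝓝 (X n i + 0 * W n b i)) :=
      tendsto_const_nhds.add ((tendsto_pow_zero (by omega)).mul_const _)
    simpa only [zero_mul, add_zero, hQ] using h3
  have h1 : ∀ n < N, ∀ m < n, kind p m ≠ kind p n → ∀ b < 4, ∀ b' < 4,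
      ∀ᶠ ε : ℝ in 𝓝[>] 0, 0 < sgn (entry p n b m b') * (Q ε n b ⬝ᵥ Q ε m b') := by
    intro n hn m hmn hk b hb b' hb'
    simp only [hdot]
    by_cases hm : m ∈ par p n
    · rw [(hX n hn m hmn hk).1 hm]
      refine pert_inc (by omega) (by omega) ?_
      obtain ⟨q, hq, rfl⟩ := List.getElem_of_mem hm
      have h2 := hp.len n hn
      have he : entry p n b (par p n)[q] b' = b.testBit q := by
        unfold entry
        rw [if_pos hmn, if_pos hm, (hp.nodup n hn).idxOf_getElem q hq, bitq_eq b (by omega)]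
      rw [he]
      exact (hW n b hn).1 q hq
    · refine pert_ne (by omega) (by omega) ?_
      have he : entry p n b m b' = sg p n m := by
        unfold entry
        rw [if_pos hmn, if_neg hm]
      rw [he]
      exact (hX n hn m hmn hk).2 hm
  have h2 : ∀ n < N, ∀ b < 4, kind p n = true → ∀ᶠ ε : ℝ in 𝓝[>] 0, 0 < Q ε n b 0 :=
    fun n hn b _ hk => (hT n hn b 0).eventually (lt_mem_nhds (hN.point n hn hk))
  have h2' : ∀ n < N, ∀ b < 4, kind p n = false → ∀ᶠ ε : ℝ in 𝓝[>] 0, 0 < Q ε n b 2 :=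
    fun n hn b _ hk => (hT n hn b 2).eventually (lt_mem_nhds (hN.line n hn hk))
  have h7 : ∀ n < N, ∀ m < N, 0 < X m 1 * X n 2 - X n 1 * X m 2 → ∀ b < 4, ∀ b' < 4,
      ∀ᶠ ε : ℝ in 𝓝[>] 0, 0 < Q ε m b' 1 * Q ε n b 2 - Q ε n b 1 * Q ε m b' 2 :=
    fun n hn m hm h b _ b' _ => (((hT m hm b' 1).mul (hT n hn b 2)).sub
      ((hT n hn b 1).mul (hT m hm b' 2))).eventually (lt_mem_nhds h)
  have h8 : ∀ n < N, kind p n = false → ∀ b < 4, ∀ b' < 4, tau b < tau b' →
      ∀ᶠ ε : ℝ in 𝓝[>] 0, 0 < Q ε n b' 1 * Q ε n b 2 - Q ε n b 1 * Q ε n b' 2 := by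
    intro n hn hk b _ b' _ ht
    have h3 : Tendsto (fun ε : ℝ => tau b' - tau b + ε ^ (N - n) *
        (W n b' 1 * W n b 2 - W n b 1 * W n b' 2)) (𝓝[>] 0) (𝓝 (tau b' - tau b + 0 *
        (W n b' 1 * W n b 2 - W n b 1 * W n b' 2))) :=
      tendsto_const_nhds.add ((tendsto_pow_zero (by omega)).mul_const _)
    filter_upwards [h3.eventually (lt_mem_nhds (show 0 < _ by linarith)), self_mem_nhdsWithin]
      with ε h4 h5
    have h6 := mul_pos (pow_pos (show (0 : ℝ) < ε from h5) (N - n)) h4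
    rw [← (hW n b hn).2 hk, ← (hW n b' hn).2 hk] at h6
    simp only [hQ]
    linarith
  have h3 : ∀ᶠ ε : ℝ in 𝓝[>] 0, (∀ n < N, ∀ m < n, kind p m ≠ kind p n → ∀ b < 4, ∀ b' < 4,
      0 < sgn (entry p n b m b') * (Q ε n b ⬝ᵥ Q ε m b')) ∧
      (∀ n < N, ∀ b < 4, kind p n = true → 0 < Q ε n b 0) ∧
      (∀ n < N, ∀ b < 4, kind p n = false → 0 < Q ε n b 2) ∧
      (∀ n < N, ∀ m < N, 0 < X m 1 * X n 2 - X n 1 * X m 2 → ∀ b < 4, ∀ b' < 4,
        0 < Q ε m b' 1 * Q ε n b 2 - Q ε n b 1 * Q ε m b' 2) ∧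
      (∀ n < N, kind p n = false → ∀ b < 4, ∀ b' < 4, tau b < tau b' →
        0 < Q ε n b' 1 * Q ε n b 2 - Q ε n b 1 * Q ε n b' 2) := by
    refine Filter.Eventually.and ?_ (Filter.Eventually.and ?_ (Filter.Eventually.and ?_
      (Filter.Eventually.and ?_ ?_)))
    · exact ev_lt fun n hn => ev_lt fun m hm => ev_imp fun hk => ev_lt fun b hb => ev_lt
        fun b' hb' => h1 n hn m hm hk b hb b' hb'
    · exact ev_lt fun n hn => ev_lt fun b hb => ev_imp fun hk => h2 n hn b hb hk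
    · exact ev_lt fun n hn => ev_lt fun b hb => ev_imp fun hk => h2' n hn b hb hk
    · exact ev_lt fun n hn => ev_lt fun m hm => ev_imp fun hk => ev_lt fun b hb => ev_lt
        fun b' hb' => h7 n hn m hm hk b hb b' hb'
    · exact ev_lt fun n hn => ev_imp fun hk => ev_lt fun b hb => ev_lt
        fun b' hb' => ev_imp fun ht => h8 n hn hk b hb b' hb' ht
  obtain ⟨ε, h4, h5, h6, h9, h10⟩ := h3.exists
  refine ⟨Q ε, fun n hn m hm hk b hb b' hb' => ?_, h5, h6, ?_⟩
  · have hne : m ≠ n := fun h => hk (by rw [h])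
    rcases lt_or_gt_of_ne hne with h7 | h7
    · exact h4 n hn m h7 hk b hb b' hb'
    · have := h4 m hm n h7 (Ne.symm hk) b' hb' b hb
      rwa [entry_symm p hne, dotProduct_comm] at this
  · rw [ocols, List.pairwise_flatMap]
    constructor
    · intro n hn
      obtain ⟨k1, k2⟩ := (hcl n).1 hn
      have k3 : ∀ b < 4, ∀ b' < 4, tau b < tau b' →
          -(Q ε n b' 1) / Q ε n b' 2 < -(Q ε n b 1) / Q ε n b 2 := fun b hb b' hb' ht =>
        slope_lt (h6 n k1 b hb k2) (h6 n k1 b' hb' k2) (h10 n k1 k2 b hb b' hb' ht)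
      have t0 : tau 0 = -1 := by
        rw [tau, show Nat.testBit 0 0 = false by decide, show Nat.testBit 0 1 = false by decide]
        norm_num [sgn]
      have t1 : tau 1 = 3 := by
        rw [tau, show Nat.testBit 1 0 = true by decide, show Nat.testBit 1 1 = false by decide]
        norm_num [sgn]
      have t2 : tau 2 = -3 := by
        rw [tau, show Nat.testBit 2 0 = false by decide, show Nat.testBit 2 1 = true by decide]
        norm_num [sgn]
      have t3 : tau 3 = 1 := by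
        rw [tau, show Nat.testBit 3 0 = true by decide, show Nat.testBit 3 1 = true by decide]
        norm_num [sgn]
      simp only [List.pairwise_cons, List.mem_cons, List.not_mem_nil, or_false, forall_eq_or_imp,
        forall_eq, List.Pairwise.nil, and_true, IsEmpty.forall_iff, implies_true]
      refine ⟨⟨?_, ?_, ?_⟩, ⟨?_, ?_⟩, ?_⟩ <;>
        exact k3 _ (by norm_num) _ (by norm_num) (by simp only [t0, t1, t2, t3]; norm_num)
    · refine hO.sorted.imp_of_mem fun {n m} hn hm h c hc c' hc' => ?_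
      obtain ⟨k1, k2⟩ := (hcl n).1 hn
      obtain ⟨k3, k4⟩ := (hcl m).1 hm
      have e1 : c.1 = n ∧ c.2 < 4 := by
        simp only [List.mem_cons, List.not_mem_nil, or_false] at hc
        rcases hc with rfl | rfl | rfl | rfl <;> simp
      have e2 : c'.1 = m ∧ c'.2 < 4 := by
        simp only [List.mem_cons, List.not_mem_nil, or_false] at hc'
        rcases hc' with rfl | rfl | rfl | rfl <;> simp
      rw [e1.1, e2.1]
      refine slope_lt (h6 n k1 _ e1.2 k2) (h6 m k3 _ e2.2 k4) (h9 n k1 m k3 ?_ _ e1.2 _ e2.2)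
      unfold H676Z.CR.slope at h
      rw [div_lt_div_iff₀ (hN.line m k3 k4) (hN.line n k1 k2)] at h
      linarith

theorem ordReal_of {p : Pat.Pat} {cl : List ℕ} {X : ℕ → Fin 3 → ℝ} (hp : WF p)
    (hcl : Cols p cl) (hX : Exact p X) (hN : Nice p X) (hO : Ordered p cl X) :
    OrdReal (omat p cl).length (wid (omat p cl)) (ent (omat p cl)) := by
  obtain ⟨P, hP, hP0, hP2, hS⟩ := strict_ordered hp hcl hX hN hO
  obtain ⟨a, ha'⟩ : ∃ a : ℕ → ℕ × ℕ, a = fun i => (cps p true).getD i (0, 0) := ⟨_, rfl⟩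
  obtain ⟨c, hc'⟩ : ∃ c : ℕ → ℕ × ℕ, c = fun j => (ocols cl).getD j (0, 0) := ⟨_, rfl⟩
  have ha : ∀ i (hi : i < (cps p true).length), (cps p true)[i] = a i := fun i hi => by
    rw [ha']; exact (List.getD_eq_getElem _ _ hi).symm
  have hc : ∀ j (hj : j < (ocols cl).length), (ocols cl)[j] = c j := fun j hj => by
    rw [hc']; exact (List.getD_eq_getElem _ _ hj).symm
  refine ⟨fun j => -(P (c j).1 (c j).2 1) / P (c j).1 (c j).2 2,
    fun j => -(P (c j).1 (c j).2 0) / P (c j).1 (c j).2 2,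
    fun i => P (a i).1 (a i).2 1 / P (a i).1 (a i).2 0,
    fun i => P (a i).1 (a i).2 2 / P (a i).1 (a i).2 0, fun j j' h1 h2 => ?_,
    fun i hi j hj => ?_⟩
  · have h3 := h2.trans_le (wid_le p cl)
    have := List.pairwise_iff_getElem.1 hS j j' (h1.trans h3) h3 h1
    rwa [hc, hc] at this
  · rw [length_omat] at hi
    have hj' := hj.trans_le (wid_le p cl)
    rw [ent_omat p cl hi hj', ha, hc]
    have m1 : a i ∈ cps p true := by rw [← ha i hi]; exact List.getElem_mem hi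
    have m2 : c j ∈ ocols cl := by rw [← hc j hj']; exact List.getElem_mem hj'
    obtain ⟨q1, q2, q3⟩ := mem_cps.1 m1
    obtain ⟨r0, r3⟩ := mem_ocols.1 m2
    obtain ⟨r1, r2⟩ := (hcl _).1 r0
    have h0 := hP0 _ q1 _ q3 q2
    have h2 := hP2 _ r1 _ r3 r2
    have h1 := hP _ q1 _ r1 (by rw [q2, r2]; decide) _ q3 _ r3
    have e : P (a i).1 (a i).2 2 / P (a i).1 (a i).2 0 -
        (-(P (c j).1 (c j).2 1) / P (c j).1 (c j).2 2 * (P (a i).1 (a i).2 1 / P (a i).1 (a i).2 0) +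
          -(P (c j).1 (c j).2 0) / P (c j).1 (c j).2 2) =
        (P (a i).1 (a i).2 ⬝ᵥ P (c j).1 (c j).2) / (P (a i).1 (a i).2 0 * P (c j).1 (c j).2 2) := by
      rw [Sgn.dp3]
      field_simp
      ring
    constructor
    · intro he
      rw [he, sgn_true, one_mul] at h1
      have := div_pos h1 (mul_pos h0 h2)
      linarith
    · intro he
      rw [he, sgn_false] at h1
      have := div_neg_of_neg_of_pos (show P (a i).1 (a i).2 ⬝ᵥ P (c j).1 (c j).2 < 0 by linarith)
        (mul_pos h0 h2)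
      linarith

theorem a1 : S_A1 :=
  ⟨poly_omat, fun _ _ hp hcl =>
    ⟨fun ⟨_, h1, h2, h3⟩ => ordReal_of hp hcl h1 h2 h3, exact_of_sep hp hcl⟩⟩

end Pool.Agent.H426Z.CR
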